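import Pool.Agent.helper57.MS.Spec2

/-!
# Project ms, row BPE (bipartitions)
-/

set_option autoImplicit false

open Finset

namespace Pool.Agent.helper57.MS

open Pool.Agent.RRank Pool.Agent.helper26.IM

theorem BPE : BPE_stmt := by
  intro d hd I
  haveI : Nonempty (Fin d) := ⟨⟨0, hd⟩⟩
  constructor
  · have hne : I ≠ Iᶜ := ne_compl_self
    refine ⟨Finpartition.ofErase ({I, Iᶜ} : Finset (Finset (Fin d))) ?_ ?_, ?_⟩
    · rw [Finset.supIndep_pair hne]
      exact disjoint_compl_right
    · simp
    · show (Finpartition.ofErase ({I, Iᶜ} : Finset (Finset (Fin d))) _ _).parts = _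
      rfl
  · intro P B hB
    have hB' : B.parts = ({I, Iᶜ} : Finset (Finset (Fin d))).erase ∅ := hB
    constructor
    · intro h L hL
      obtain ⟨c, hc, hLc⟩ := h hL
      rw [hB', Finset.mem_erase, Finset.mem_insert, Finset.mem_singleton] at hc
      rcases hc.2 with rfl | rfl
      · exact Or.inl hLc
      · exact Or.inr hLc
    · intro h L hL
      have hLne : L ≠ ∅ := P.ne_bot hL
      rcases h L hL with h1 | h1
      · refine ⟨I, ?_, h1⟩
        rw [hB', Finset.mem_erase]
        refine ⟨?_, by simp⟩
        rintro rfl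
        exact hLne (Finset.subset_empty.1 h1)
      · refine ⟨Iᶜ, ?_, h1⟩
        rw [hB', Finset.mem_erase]
        refine ⟨?_, by simp⟩
        intro h2
        rw [h2] at h1
        exact hLne (Finset.subset_empty.1 h1)

end Pool.Agent.helper57.MS
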