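import Pool.Agent.helper57.MS.Spec

/-!
# Row ms:IN2 (MP_b48e27_co): the two systems of internal functions are compatible
-/

set_option autoImplicit false

open Finset

namespace Pool.Agent.helper57.MS

open Pool.Agent.RRank Pool.Agent.helper26.IM

theorem IN2 (hINS : INS_stmt) : IN2_stmt := by
  intro 𝓅 K _ d l Q
  obtain ⟨F, hF⟩ := hINS 𝓅 K (Fin d) Q
  obtain ⟨F', hF'⟩ := hINS 𝓅 K (Fin d × Fin l) (fun n w => Q n w.1)
  refine ⟨{ F := F, F' := F', cop_mem := ?_, dia_mem := ?_ }, hF⟩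
  · intro S f hf s
    obtain ⟨φ, hφ, hfφ⟩ := (hF S f).1 hf
    refine (hF' (gr S s) (cop f s)).2 ⟨fun n y => φ n (fun α => y (α, s α)), ?_, ?_⟩
    · intro n y y' hyy'
      refine hφ n fun α hα => ?_
      exact hyy' (α, s α) (Finset.mem_coe.2 (Finset.mem_image.2 ⟨α, Finset.mem_coe.1 hα, rfl⟩))
    · intro x
      exact hfφ (fun α => x (α, s α))
  · intro S f hf
    obtain ⟨φ, hφ, hfφ⟩ := (hF' S f).1 hf
    refine (hF (S.image Prod.fst) (dia f)).2 ⟨fun n y => φ n (fun w => y w.1), ?_, ?_⟩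
    · intro n y y' hyy'
      refine hφ n fun w hw => ?_
      exact hyy' w.1 (Finset.mem_coe.2 (Finset.mem_image.2 ⟨w, Finset.mem_coe.1 hw, rfl⟩))
    · intro x
      exact hfφ (fun w => x w.1)

end Pool.Agent.helper57.MS
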